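import Pool.Agent.helper37.F2.Spec2

/-!
# Row f2t:TV of MP_26dbae_co (S07735): from `RT` to `Rooted`
-/

set_option autoImplicit false

open scoped BigOperators

namespace Pool.Agent.F2T

open Pool.Agent.helper23.TH Pool.Agent.F2

noncomputable section

open Classical

/-- the rooted graph on `Fin` types -/
def TV_T (T : RT) : Rooted where
  r := Fintype.card T.R
  v := Fintype.card T.I
  e := Fintype.card T.E
  ed i := (Equiv.sumCongr (Fintype.equivFin T.R) (Fintype.equivFin T.I) (T.ed ((Fintype.equivFin T.E).symm i)).1,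
    Equiv.sumCongr (Fintype.equivFin T.R) (Fintype.equivFin T.I) (T.ed ((Fintype.equivFin T.E).symm i)).2)
  inj := by
    intro i j h
    apply (Fintype.equivFin T.E).symm.injective
    apply T.inj
    simp only [Sym2.eq_iff, EmbeddingLike.apply_eq_iff_eq] at h ⊢
    exact h
  loopless := by
    intro i h
    have h1 := (Equiv.sumCongr (Fintype.equivFin T.R) (Fintype.equivFin T.I)).injective h
    exact T.ok ((Fintype.equivFin T.E).symm i) (by rw [h1])

theorem TV_bal (T : RT) (h : T.Bal) : (TV_T T).Balanced := by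
  intro S
  have h1 := h (S.map (Fintype.equivFin T.I).symm.toEmbedding)
  rw [Finset.card_map] at h1
  have h2 : T.es (S.map (Fintype.equivFin T.I).symm.toEmbedding) = (TV_T T).es S := by
    unfold RT.es Rooted.es
    refine Finset.card_equiv (Fintype.equivFin T.E) fun e => ?_
    simp only [Finset.mem_filter, Finset.mem_univ, true_and]
    have key : ∀ (a : T.R ⊕ T.I) (x : Fin (Fintype.card T.I)),
        Equiv.sumCongr (Fintype.equivFin T.R) (Fintype.equivFin T.I) a = Sum.inr x ↔
        a = Sum.inr ((Fintype.equivFin T.I).symm x) := by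
      rintro (a | a) x
      · simp
      · simp only [Equiv.sumCongr_apply, Sum.map_inr, Sum.inr.injEq]
        exact (Equiv.eq_symm_apply _).symm
    have he1 : ∀ x : Fin (Fintype.card T.I), ((TV_T T).ed ((Fintype.equivFin T.E) e)).1 = Sum.inr x ↔
        (T.ed e).1 = Sum.inr ((Fintype.equivFin T.I).symm x) := by
      intro x
      have h3 : ((TV_T T).ed ((Fintype.equivFin T.E) e)).1 =
          Equiv.sumCongr (Fintype.equivFin T.R) (Fintype.equivFin T.I) (T.ed e).1 := by
        show Equiv.sumCongr (Fintype.equivFin T.R) (Fintype.equivFin T.I)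
          (T.ed ((Fintype.equivFin T.E).symm ((Fintype.equivFin T.E) e))).1 = _
        rw [Equiv.symm_apply_apply]
      rw [h3]
      exact key _ _
    have he2 : ∀ x : Fin (Fintype.card T.I), ((TV_T T).ed ((Fintype.equivFin T.E) e)).2 = Sum.inr x ↔
        (T.ed e).2 = Sum.inr ((Fintype.equivFin T.I).symm x) := by
      intro x
      have h3 : ((TV_T T).ed ((Fintype.equivFin T.E) e)).2 =
          Equiv.sumCongr (Fintype.equivFin T.R) (Fintype.equivFin T.I) (T.ed e).2 := by
        show Equiv.sumCongr (Fintype.equivFin T.R) (Fintype.equivFin T.I)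
          (T.ed ((Fintype.equivFin T.E).symm ((Fintype.equivFin T.E) e))).2 = _
        rw [Equiv.symm_apply_apply]
      rw [h3]
      exact key _ _
    constructor
    · rintro ⟨x, hx, hx'⟩
      rw [Finset.mem_map] at hx
      obtain ⟨y, hy, rfl⟩ := hx
      exact ⟨y, hy, hx'.imp (he1 y).2 (he2 y).2⟩
    · rintro ⟨x, hx, hx'⟩
      exact ⟨_, Finset.mem_map_of_mem _ hx, hx'.imp (he1 x).1 (he2 x).1⟩
  rw [h2] at h1
  exact h1

/-- the colour of the vertices of the powers -/
def TV_col (T : RT) (p : ℕ) : Fin (TV_T T).r ⊕ (Fin p × Fin (TV_T T).v) → Bool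
  | .inl x => T.col (.inl ((Fintype.equivFin T.R).symm x))
  | .inr y => T.col (.inr ((Fintype.equivFin T.I).symm y.2))

theorem TV_col_lift (T : RT) (p : ℕ) (t : Fin p) (x : T.R ⊕ T.I) :
    TV_col T p ((TV_T T).lift t (Equiv.sumCongr (Fintype.equivFin T.R) (Fintype.equivFin T.I) x)) = T.col x := by
  rcases x with x | x
  · show T.col (.inl ((Fintype.equivFin T.R).symm ((Fintype.equivFin T.R) x))) = _
    rw [Equiv.symm_apply_apply]
  · show T.col (.inr ((Fintype.equivFin T.I).symm ((Fintype.equivFin T.I) x))) = _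
    rw [Equiv.symm_apply_apply]

theorem TV_colr (T : RT) (p : ℕ) : ((TV_T T).pw p).Colorable 2 := by
  have h : ((TV_T T).pw p).Colorable (Fintype.card Bool) := by
    refine SimpleGraph.Coloring.colorable (SimpleGraph.Coloring.mk (TV_col T p) ?_)
    rintro a b ⟨t, i, ⟨rfl, rfl⟩ | ⟨rfl, rfl⟩⟩
    · show TV_col T p _ ≠ TV_col T p _
      simp only [TV_T]
      intro h
      have h1 := TV_col_lift T p t (T.ed ((Fintype.equivFin T.E).symm i)).1
      have h2 := TV_col_lift T p t (T.ed ((Fintype.equivFin T.E).symm i)).2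
      exact T.ok ((Fintype.equivFin T.E).symm i) (h1.symm.trans (h.trans h2))
    · show TV_col T p _ ≠ TV_col T p _
      simp only [TV_T]
      intro h
      have h1 := TV_col_lift T p t (T.ed ((Fintype.equivFin T.E).symm i)).1
      have h2 := TV_col_lift T p t (T.ed ((Fintype.equivFin T.E).symm i)).2
      exact T.ok ((Fintype.equivFin T.E).symm i) (h1.symm.trans (h.symm.trans h2))
  exact h

/-- the equivalence of the vertices of the powers -/
def TV_F (T : RT) (p : ℕ) : Fin (TV_T T).r ⊕ (Fin p × Fin (TV_T T).v) ≃ T.R ⊕ (Fin p × T.I) :=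
  Equiv.sumCongr (Fintype.equivFin T.R).symm (Equiv.prodCongr (Equiv.refl _) (Fintype.equivFin T.I).symm)

theorem TV_F_lift (T : RT) (p : ℕ) (t : Fin p) (x : T.R ⊕ T.I) :
    TV_F T p ((TV_T T).lift t (Equiv.sumCongr (Fintype.equivFin T.R) (Fintype.equivFin T.I) x)) = T.li t x := by
  rcases x with x | x
  · show Sum.inl ((Fintype.equivFin T.R).symm ((Fintype.equivFin T.R) x)) = _
    rw [Equiv.symm_apply_apply]
    rfl
  · show Sum.inr (t, (Fintype.equivFin T.I).symm ((Fintype.equivFin T.I) x)) = _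
    rw [Equiv.symm_apply_apply]
    rfl

theorem TV_two (T : RT) (p : ℕ) (V K : Type) (χ : V → V → K) (hs : ∀ a b, χ a b = χ b a)
    (h : TwoH (T.pwH p) χ) : Two ((TV_T T).pw p) χ := by
  obtain ⟨φ, ψ, hφ, hψ, hd, he⟩ := h
  refine ⟨fun x => φ (TV_F T p x), fun x => ψ (TV_F T p x), fun a b hab => (TV_F T p).injective (hφ hab),
    fun a b hab => (TV_F T p).injective (hψ hab), fun u v => hd _ _, ?_⟩
  have key : ∀ (t : Fin p) (i : Fin (TV_T T).e),
      χ (φ (TV_F T p ((TV_T T).lift t ((TV_T T).ed i).1))) (φ (TV_F T p ((TV_T T).lift t ((TV_T T).ed i).2))) =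
      χ (ψ (TV_F T p ((TV_T T).lift t ((TV_T T).ed i).1))) (ψ (TV_F T p ((TV_T T).lift t ((TV_T T).ed i).2))) := by
    intro t i
    have h1 : TV_F T p ((TV_T T).lift t ((TV_T T).ed i).1) = T.li t (T.ed ((Fintype.equivFin T.E).symm i)).1 :=
      TV_F_lift T p t _
    have h2 : TV_F T p ((TV_T T).lift t ((TV_T T).ed i).2) = T.li t (T.ed ((Fintype.equivFin T.E).symm i)).2 :=
      TV_F_lift T p t _
    rw [h1, h2]
    exact he (t, (Fintype.equivFin T.E).symm i)
  rintro u v ⟨t, i, ⟨rfl, rfl⟩ | ⟨rfl, rfl⟩⟩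
  · exact key t i
  · show χ (φ (TV_F T p ((TV_T T).lift t ((TV_T T).ed i).2))) (φ (TV_F T p ((TV_T T).lift t ((TV_T T).ed i).1))) =
      χ (ψ (TV_F T p ((TV_T T).lift t ((TV_T T).ed i).2))) (ψ (TV_F T p ((TV_T T).lift t ((TV_T T).ed i).1)))
    rw [hs, hs (ψ _)]
    exact key t i

theorem TV : TV_stmt := by
  intro T
  exact ⟨TV_T T, rfl, rfl, TV_bal T, TV_colr T, fun p V K χ hs h => TV_two T p V K χ hs h⟩

end

end Pool.Agent.F2T
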